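import Pool.Agent.H607R2.Fourier

set_option autoImplicit false
set_option linter.unusedSectionVars false

namespace Pool.Agent.H607R2

open Finset

variable {ι : Type} [Fintype ι] [DecidableEq ι] (b : ι → ℕ) [∀ i, NeZero (b i)]

lemma sum_zero_or (N : ℕ) [NeZero N] (t : ℝ) :
    ∑ x : ZMod N, (if x = 0 then t else 1) = (N : ℝ) - 1 + t := by
  rw [sum_ite, sum_const, sum_const, filter_eq' univ (0 : ZMod N), if_pos (mem_univ _), card_singleton,
    filter_ne' univ (0 : ZMod N), card_erase_of_mem (mem_univ _), card_univ, ZMod.card]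
  have : 1 ≤ N := Nat.one_le_iff_ne_zero.mpr (NeZero.ne N)
  simp only [nsmul_eq_mul, Nat.cast_one, one_mul, mul_one]
  rw [Nat.cast_sub this]
  push_cast
  ring

lemma sum_zero_or2 (N : ℕ) [NeZero N] (s : ℝ) :
    ∑ x : ZMod N, ∑ x' : ZMod N, (if x = 0 ∨ x' = 0 then s else 1) = ((N : ℝ) - 1) ^ 2 + s * (2 * N - 1) := by
  have h1 : ∀ x : ZMod N, ∑ x' : ZMod N, (if x = 0 ∨ x' = 0 then s else 1)
      = if x = 0 then (N : ℝ) * s else (N : ℝ) - 1 + s := by
    intro x
    by_cases hx : x = 0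
    · simp [hx, ZMod.card]
    · simp only [hx, false_or, if_false]
      exact sum_zero_or N s
  rw [sum_congr rfl fun x _ => h1 x]
  rw [sum_ite, sum_const, sum_const, filter_eq' univ (0 : ZMod N), if_pos (mem_univ _), card_singleton,
    filter_ne' univ (0 : ZMod N), card_erase_of_mem (mem_univ _), card_univ, ZMod.card]
  have : 1 ≤ N := Nat.one_le_iff_ne_zero.mpr (NeZero.ne N)
  simp only [nsmul_eq_mul, Nat.cast_one, one_mul]
  rw [Nat.cast_sub this]
  push_cast
  ring

lemma sum_pow_zeros (t : ℝ) :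
    ∑ z : GG b, t ^ ((univ : Finset ι).filter fun i => z i = 0).card = ∏ i, ((b i : ℝ) - 1 + t) := by
  have h := Finset.prod_univ_sum (fun i : ι => (univ : Finset (ZMod (b i))))
    (fun i x => if x = 0 then t else 1)
  rw [Fintype.piFinset_univ] at h
  rw [← prod_congr rfl fun i _ => sum_zero_or (b i) t, h]
  apply sum_congr rfl
  intro z _
  rw [prod_ite, prod_const, prod_const_one, mul_one]

lemma sum_pow_zeros2 (s : ℝ) :
    ∑ y : GG b, ∑ ξ : GG b, s ^ ((univ : Finset ι).filter fun i => y i = 0 ∨ ξ i = 0).card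
      = ∏ i, (((b i : ℝ) - 1) ^ 2 + s * (2 * b i - 1)) := by
  have h := Finset.prod_univ_sum (fun i : ι => (univ : Finset (ZMod (b i))))
    (fun i x => ∑ x' : ZMod (b i), if x = 0 ∨ x' = 0 then s else 1)
  rw [Fintype.piFinset_univ] at h
  rw [← prod_congr rfl fun i _ => sum_zero_or2 (b i) s, h]
  apply sum_congr rfl
  intro y _
  have h' := Finset.prod_univ_sum (fun i : ι => (univ : Finset (ZMod (b i))))
    (fun i x' => if y i = 0 ∨ x' = 0 then s else 1)
  rw [Fintype.piFinset_univ] at h'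
  rw [h']
  apply sum_congr rfl
  intro ξ _
  rw [prod_ite, prod_const, prod_const_one, mul_one]

lemma card_ZZ (h : ℕ) (t : ℝ) (ht : 1 ≤ t) :
    ((ZZ b h).card : ℝ) * t ^ h ≤ ∏ i, ((b i : ℝ) - 1 + t) := by
  rw [← sum_pow_zeros b t, ← nsmul_eq_mul, ← sum_const]
  have h0 : (0 : ℝ) ≤ t := by linarith
  refine (sum_le_sum (g := fun z : GG b => t ^ ((univ : Finset ι).filter fun i => z i = 0).card) ?_).trans
    (sum_le_sum_of_subset_of_nonneg (subset_univ _) fun z _ _ => by positivity)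
  intro z hz
  unfold ZZ at hz
  rw [mem_filter] at hz
  exact pow_le_pow_right₀ ht hz.2

/-- pairs with few zeros -/
noncomputable def NN (h : ℕ) : Finset (GG b × GG b) :=
  univ.filter fun p => ((univ : Finset ι).filter fun i => p.1 i = 0 ∨ p.2 i = 0).card < h

lemma card_NN (h : ℕ) (s : ℝ) (hs : 0 < s) (hs1 : s ≤ 1) :
    ((NN b h).card : ℝ) * s ^ h ≤ ∏ i, (((b i : ℝ) - 1) ^ 2 + s * (2 * b i - 1)) := by
  rw [← sum_pow_zeros2 b s, ← nsmul_eq_mul, ← sum_const, ← Fintype.sum_prod_type']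
  refine (sum_le_sum (g := fun p : GG b × GG b => s ^ ((univ : Finset ι).filter fun i => p.1 i = 0 ∨ p.2 i = 0).card) ?_).trans
    (sum_le_sum_of_subset_of_nonneg (subset_univ _) fun z _ _ => by positivity)
  intro z hz
  unfold NN at hz
  rw [mem_filter] at hz
  exact pow_le_pow_of_le_one hs.le hs1 hz.2.le

lemma sum_Hi_card (h n : ℕ) (hn : n ≤ ∏ i, b i)
    (hinj : ∀ s < ∏ i, b i, ∀ s' < ∏ i, b i, red b s = red b s' → s = s') :
    ∑ ξ : GG b, ((range n).filter fun i => Hi b h (red b i) ξ ≠ 0).card ≤ (NN b h).card := by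
  classical
  rw [← card_sigma]
  apply card_le_card_of_injOn (fun p : (_ : GG b) × ℕ => (red b p.2, p.1))
  · rintro ⟨ξ, i⟩ hp
    rw [mem_coe, mem_sigma, mem_filter] at hp
    rw [mem_coe]
    unfold NN
    rw [mem_filter]
    exact ⟨mem_univ _, Hi_ne b hp.2.2⟩
  · rintro ⟨ξ, i⟩ hp ⟨ξ', i'⟩ hp' heq
    rw [mem_coe, mem_sigma, mem_filter, mem_range] at hp hp'
    simp only [Prod.mk.injEq] at heq
    obtain ⟨h1, h2⟩ := heq
    subst h2
    have := hinj i (hp.2.1.trans_le hn) i' (hp'.2.1.trans_le hn) h1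
    subst this
    rfl

end Pool.Agent.H607R2
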