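import Mathlib

set_option autoImplicit false
set_option linter.unusedSectionVars false

namespace Pool.Agent.H607R2

open Finset

variable {ι : Type} [Fintype ι] [DecidableEq ι] (b : ι → ℕ) [∀ i, NeZero (b i)]

/-- product of cyclic groups -/
abbrev GG := (i : ι) → ZMod (b i)

/-- residues -/
def red (s : ℕ) : GG b := fun i => (s : ZMod (b i))

/-- characters of the product group -/
noncomputable def FF (y ξ : GG b) : ℂ := ∏ i, ZMod.stdAddChar (ξ i * y i)

lemma FF_add (y y' ξ : GG b) : FF b (y + y') ξ = FF b y ξ * FF b y' ξ := by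
  unfold FF
  rw [← prod_mul_distrib]
  apply prod_congr rfl
  intro i _
  rw [Pi.add_apply, mul_add, AddChar.map_add_eq_mul]

lemma sum_FF (y : GG b) : ∑ ξ : GG b, FF b y ξ = if y = 0 then ((∏ i, b i : ℕ) : ℂ) else 0 := by
  unfold FF
  have h := Finset.prod_univ_sum (fun i : ι => (univ : Finset (ZMod (b i))))
    (fun i x => (ZMod.stdAddChar (x * y i) : ℂ))
  rw [Fintype.piFinset_univ] at h
  rw [← h]
  have h2 : ∀ i : ι, ∑ x : ZMod (b i), (ZMod.stdAddChar (x * y i) : ℂ) = if y i = 0 then (b i : ℂ) else 0 := by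
    intro i
    rw [AddChar.sum_mulShift (y i) (ZMod.isPrimitive_stdAddChar (b i))]
    split_ifs
    · rw [ZMod.card]
    · simp
  rw [prod_congr rfl fun i _ => h2 i]
  by_cases hy : y = 0
  · subst hy
    simp
  · rw [if_neg hy]
    obtain ⟨i, hi⟩ : ∃ i, y i ≠ 0 := by
      by_contra hcon
      push Not at hcon
      exact hy (funext hcon)
    exact prod_eq_zero (mem_univ i) (if_neg hi)

lemma fourier (H : ℕ → ℂ)
    (hinj : ∀ s < ∏ i, b i, ∀ s' < ∏ i, b i, red b s = red b s' → s = s') :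
    ∃ c : GG b → ℂ, ∀ s < ∏ i, b i, H s = ∑ ξ : GG b, c ξ * FF b (red b s) ξ := by
  classical
  set Q := ∏ i, b i with hQ
  have hQ0 : (Q : ℂ) ≠ 0 := by
    rw [hQ]
    push_cast
    exact prod_ne_zero_iff.mpr fun i _ => Nat.cast_ne_zero.mpr (NeZero.ne (b i))
  refine ⟨fun ξ => (1 / (Q : ℂ)) * ∑ s' ∈ range Q, H s' * FF b (-red b s') ξ, ?_⟩
  intro s hs
  have h1 : ∑ ξ : GG b, (1 / (Q : ℂ)) * (∑ s' ∈ range Q, H s' * FF b (-red b s') ξ) * FF b (red b s) ξ
      = (1 / (Q : ℂ)) * ∑ s' ∈ range Q, H s' * ∑ ξ : GG b, FF b (-red b s' + red b s) ξ := by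
    rw [mul_sum]
    have : ∀ ξ : GG b, (1 / (Q : ℂ)) * (∑ s' ∈ range Q, H s' * FF b (-red b s') ξ) * FF b (red b s) ξ
        = ∑ s' ∈ range Q, (1 / (Q : ℂ)) * (H s' * FF b (-red b s' + red b s) ξ) := by
      intro ξ
      rw [mul_sum, sum_mul]
      apply sum_congr rfl
      intro s' _
      rw [FF_add]
      ring
    rw [sum_congr rfl fun ξ _ => this ξ, sum_comm]
    apply sum_congr rfl
    intro s' _
    rw [mul_sum, mul_sum]
  rw [h1]
  have h2 : ∀ s' ∈ range Q, H s' * ∑ ξ : GG b, FF b (-red b s' + red b s) ξ = if s' = s then H s * Q else 0 := by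
    intro s' hs'
    rw [sum_FF]
    by_cases h : s' = s
    · subst h
      simp [hQ]
    · rw [if_neg h, if_neg, mul_zero]
      intro h0
      apply h
      have : red b s' = red b s := (neg_add_eq_zero.mp h0)
      exact hinj s' (mem_range.mp hs') s hs this
  rw [sum_congr rfl h2, sum_ite_eq' (range Q) s, if_pos (mem_range.mpr hs)]
  field_simp

/-- deviation of the `i`-th character factor from `1` -/
noncomputable def ee (y ξ : GG b) (i : ι) : ℂ := ZMod.stdAddChar (ξ i * y i) - 1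

lemma ee_left {y : GG b} (ξ : GG b) {i : ι} (h : y i = 0) : ee b y ξ i = 0 := by
  unfold ee; rw [h]; simp

lemma ee_right (y : GG b) {ξ : GG b} {i : ι} (h : ξ i = 0) : ee b y ξ i = 0 := by
  unfold ee; rw [h]; simp

/-- low part -/
noncomputable def Lo (h : ℕ) (y ξ : GG b) : ℂ :=
  ∑ K ∈ (univ : Finset ι).powerset.filter (fun K => K.card + h ≤ Fintype.card ι), ∏ i ∈ K, ee b y ξ i

/-- high part -/
noncomputable def Hi (h : ℕ) (y ξ : GG b) : ℂ :=
  ∑ K ∈ (univ : Finset ι).powerset.filter (fun K => ¬ (K.card + h ≤ Fintype.card ι)), ∏ i ∈ K, ee b y ξ i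

lemma FF_eq (h : ℕ) (y ξ : GG b) : FF b y ξ = Lo b h y ξ + Hi b h y ξ := by
  unfold Lo Hi
  rw [sum_filter_add_sum_filter_not, ← prod_one_add]
  unfold FF ee
  apply prod_congr rfl
  intro i _
  ring

lemma Hi_ne {h : ℕ} {y ξ : GG b} (hne : Hi b h y ξ ≠ 0) :
    ((univ : Finset ι).filter fun i => y i = 0 ∨ ξ i = 0).card < h := by
  by_contra hcon
  push Not at hcon
  apply hne
  unfold Hi
  apply sum_eq_zero
  intro K hK
  rw [mem_filter] at hK
  by_contra hp
  rw [prod_eq_zero_iff] at hp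
  push Not at hp
  have hdisj : Disjoint K ((univ : Finset ι).filter fun i => y i = 0 ∨ ξ i = 0) := by
    rw [disjoint_left]
    intro i hi hi2
    rw [mem_filter] at hi2
    rcases hi2.2 with h0 | h0
    · exact hp i hi (ee_left b ξ h0)
    · exact hp i hi (ee_right b y h0)
  have := card_le_univ (K ∪ (univ : Finset ι).filter fun i => y i = 0 ∨ ξ i = 0)
  rw [card_union_of_disjoint hdisj] at this
  exact hK.2 (by omega)

/-- index set of the low rank part -/
noncomputable def ZZ (h : ℕ) : Finset (GG b) :=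
  univ.filter fun z => h ≤ ((univ : Finset ι).filter fun i => z i = 0).card

open Classical in
/-- left vectors -/
noncomputable def uu (z y : GG b) : ℂ := if ∀ i, z i ≠ 0 → y i = z i then 1 else 0

/-- right vectors -/
noncomputable def WW (z ξ : GG b) : ℂ := ∏ i ∈ univ.filter (fun i => z i ≠ 0), ee b z ξ i

lemma Lo_eq (h : ℕ) (y ξ : GG b) : Lo b h y ξ = ∑ z ∈ ZZ b h, uu b z y * WW b z ξ := by
  classical
  have h1 : ∑ z ∈ ZZ b h, uu b z y * WW b z ξ =
      ∑ z ∈ (ZZ b h).filter (fun z => ∀ i, z i ≠ 0 → y i = z i), WW b z ξ := by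
    rw [sum_filter]
    apply sum_congr rfl
    intro z _
    unfold uu
    by_cases hz : ∀ i, z i ≠ 0 → y i = z i
    · rw [if_pos hz, if_pos hz, one_mul]
    · rw [if_neg hz, if_neg hz, zero_mul]
  rw [h1]
  unfold Lo
  have h2 : ∑ K ∈ (univ : Finset ι).powerset.filter (fun K => K.card + h ≤ Fintype.card ι), ∏ i ∈ K, ee b y ξ i
      = ∑ K ∈ ((univ : Finset ι).powerset.filter (fun K => K.card + h ≤ Fintype.card ι)).filter
          (fun K => ∀ i ∈ K, y i ≠ 0), ∏ i ∈ K, ee b y ξ i := by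
    symm
    apply sum_filter_of_ne
    intro K _ hK i hi h0
    exact hK (prod_eq_zero hi (ee_left b ξ h0))
  rw [h2]
  symm
  have hsupp : ∀ z : GG b, ((univ : Finset ι).filter fun i => z i = 0).card +
      ((univ : Finset ι).filter fun i => z i ≠ 0).card = Fintype.card ι := by
    intro z
    rw [card_filter_add_card_filter_not]
    rfl
  apply sum_nbij' (fun z => (univ : Finset ι).filter fun i => z i ≠ 0)
    (fun K => fun i => if i ∈ K then y i else 0)
  · intro z hz
    rw [mem_filter] at hz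
    have hz1 := hz.1
    unfold ZZ at hz1
    rw [mem_filter] at hz1
    rw [mem_filter, mem_filter]
    refine ⟨⟨mem_powerset.mpr (subset_univ _), ?_⟩, ?_⟩
    · have := hsupp z
      omega
    · intro i hi
      rw [mem_filter] at hi
      rw [hz.2 i hi.2]
      exact hi.2
  · intro K hK
    rw [mem_filter, mem_filter] at hK
    have hs : ((univ : Finset ι).filter fun i => (fun i => if i ∈ K then y i else 0 : GG b) i ≠ 0) = K := by
      ext i
      rw [mem_filter]
      by_cases hi : i ∈ K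
      · simp [hi, hK.2 i hi]
      · simp [hi]
    rw [mem_filter]
    unfold ZZ
    rw [mem_filter]
    refine ⟨⟨mem_univ _, ?_⟩, ?_⟩
    · have h3 := hsupp (fun i => if i ∈ K then y i else 0 : GG b)
      rw [hs] at h3
      have h4 := hK.1.2
      beta_reduce at h3 ⊢
      omega
    · intro i hi
      by_cases hiK : i ∈ K
      · simp [hiK]
      · simp [hiK] at hi
  · intro z hz
    rw [mem_filter] at hz
    funext i
    by_cases hi : z i = 0
    · simp [hi]
    · simp only [mem_filter, mem_univ, true_and]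
      rw [if_pos hi, hz.2 i hi]
  · intro K hK
    rw [mem_filter, mem_filter] at hK
    ext i
    rw [mem_filter]
    by_cases hi : i ∈ K
    · simp [hi, hK.2 i hi]
    · simp [hi]
  · intro z hz
    rw [mem_filter] at hz
    unfold WW
    apply prod_congr rfl
    intro i hi
    rw [mem_filter] at hi
    unfold ee
    rw [hz.2 i hi.2]

/-- The decomposition of a Hankel matrix. -/
lemma hankel (h : ℕ) (H : ℕ → ℂ)
    (hinj : ∀ s < ∏ i, b i, ∀ s' < ∏ i, b i, red b s = red b s' → s = s') :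
    ∃ (V V' : GG b → ℕ → ℂ) (c : GG b → ℂ), ∀ i j, i + j < ∏ i, b i →
      H (i + j) = ∑ z ∈ ZZ b h, uu b z (red b i) * V z j + ∑ z ∈ ZZ b h, V' z i * uu b z (red b j) +
        ∑ ξ : GG b, (c ξ * Hi b h (red b i) ξ) * Hi b h (red b j) ξ := by
  obtain ⟨c, hc⟩ := fourier b H hinj
  refine ⟨fun z j => ∑ ξ : GG b, c ξ * WW b z ξ * FF b (red b j) ξ,
    fun z i => ∑ ξ : GG b, c ξ * WW b z ξ * Hi b h (red b i) ξ, c, ?_⟩
  intro i j hij
  rw [hc _ hij]
  have hr : red b (i + j) = red b i + red b j := by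
    funext k
    simp [red]
  have e1 : ∑ z ∈ ZZ b h, uu b z (red b i) * ∑ ξ : GG b, c ξ * WW b z ξ * FF b (red b j) ξ
      = ∑ ξ : GG b, c ξ * Lo b h (red b i) ξ * FF b (red b j) ξ := by
    rw [sum_congr rfl fun z _ => mul_sum _ _ _, sum_comm]
    apply sum_congr rfl
    intro ξ _
    rw [Lo_eq, mul_sum, sum_mul]
    apply sum_congr rfl
    intro z _
    ring
  have e2 : ∑ z ∈ ZZ b h, (∑ ξ : GG b, c ξ * WW b z ξ * Hi b h (red b i) ξ) * uu b z (red b j)
      = ∑ ξ : GG b, c ξ * Hi b h (red b i) ξ * Lo b h (red b j) ξ := by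
    rw [sum_congr rfl fun z _ => sum_mul _ _ _, sum_comm]
    apply sum_congr rfl
    intro ξ _
    rw [Lo_eq, mul_sum]
    apply sum_congr rfl
    intro z _
    ring
  rw [e1, e2, ← sum_add_distrib, ← sum_add_distrib]
  apply sum_congr rfl
  intro ξ _
  rw [hr, FF_add, FF_eq b h (red b i) ξ, FF_eq b h (red b j) ξ]
  ring

end Pool.Agent.H607R2
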