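import Mathlib

set_option autoImplicit false

namespace Pool.Agent.H607R2

open Polynomial Finset

/-- `Rep f B`: `f` is a weighted sum of squares of real polynomials with support-sum at most `B`. -/
def Rep (f : ℝ[X]) (B : ℕ) : Prop :=
  ∃ (s : ℕ) (c : Fin s → ℝ) (g : Fin s → ℝ[X]),
    f = ∑ i, C (c i) * g i ^ 2 ∧ ∑ i, (g i).support.card ≤ B

lemma Rep.zero : Rep 0 0 := ⟨0, fun _ => 0, fun _ => 0, by simp, by simp⟩

lemma Rep.mono {f : ℝ[X]} {B B' : ℕ} (h : Rep f B) (hB : B ≤ B') : Rep f B' := by
  obtain ⟨s, c, g, h1, h2⟩ := h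
  exact ⟨s, c, g, h1, h2.trans hB⟩

lemma Rep.add {f g : ℝ[X]} {B B' : ℕ} (hf : Rep f B) (hg : Rep g B') : Rep (f + g) (B + B') := by
  obtain ⟨s, c, u, h1, h2⟩ := hf
  obtain ⟨s', c', u', h1', h2'⟩ := hg
  refine ⟨s + s', Fin.append c c', Fin.append u u', ?_, ?_⟩
  · rw [Fin.sum_univ_add]
    simp only [Fin.append_left, Fin.append_right]
    rw [h1, h1']
  · rw [Fin.sum_univ_add]
    simp only [Fin.append_left, Fin.append_right]
    omega

lemma Rep.sum {α : Type*} (S : Finset α) (f : α → ℝ[X]) (B : α → ℕ) (h : ∀ a ∈ S, Rep (f a) (B a)) :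
    Rep (∑ a ∈ S, f a) (∑ a ∈ S, B a) := by
  classical
  induction S using Finset.induction_on with
  | empty => simpa using Rep.zero
  | insert a S ha ih =>
    rw [sum_insert ha, sum_insert ha]
    exact (h a (mem_insert_self a S)).add (ih fun b hb => h b (mem_insert_of_mem hb))

lemma card_support_add_le (p q : ℝ[X]) : (p + q).support.card ≤ p.support.card + q.support.card := by
  classical
  exact (card_le_card support_add).trans (card_union_le _ _)

lemma card_support_sub_le (p q : ℝ[X]) : (p - q).support.card ≤ p.support.card + q.support.card := by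
  have := card_support_add_le p (-q)
  rwa [support_neg, ← sub_eq_add_neg] at this

lemma Rep.mul (p q : ℝ[X]) : Rep (p * q) (2 * (p.support.card + q.support.card)) := by
  refine ⟨2, ![1 / 4, -1 / 4], ![p + q, p - q], ?_, ?_⟩
  · rw [Fin.sum_univ_two]
    simp only [Matrix.cons_val_zero, Matrix.cons_val_one]
    have h : (C (-1 / 4 : ℝ) : ℝ[X]) = - C (1 / 4) := by rw [← C_neg]; norm_num
    rw [h]
    have h4 : (C (1 / 4 : ℝ) : ℝ[X]) * 4 = 1 := by
      have : (4 : ℝ[X]) = C 4 := rfl
      rw [this, ← C_mul]; norm_num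
    calc p * q = (C (1 / 4 : ℝ) * 4) * (p * q) := by rw [h4, one_mul]
      _ = _ := by ring
  · rw [Fin.sum_univ_two]
    simp only [Matrix.cons_val_zero, Matrix.cons_val_one]
    have h1 := card_support_add_le p q
    have h2 := card_support_sub_le p q
    omega

lemma Rep.neg {f : ℝ[X]} {B : ℕ} (h : Rep f B) : Rep (-f) B := by
  obtain ⟨s, c, g, h1, h2⟩ := h
  refine ⟨s, fun i => - c i, g, ?_, h2⟩
  rw [h1]
  simp [sum_neg_distrib]

/-- polynomial with prescribed values of coefficients on an injective set of exponents -/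
noncomputable def mk (n : ℕ) (e : ℕ → ℕ) (u : ℕ → ℝ) : ℝ[X] := ∑ i ∈ range n, monomial (e i) (u i)

lemma card_support_mk (n : ℕ) (e : ℕ → ℕ) (u : ℕ → ℝ) :
    (mk n e u).support.card ≤ ((range n).filter fun i => u i ≠ 0).card := by
  classical
  have h : mk n e u = ∑ i ∈ (range n).filter (fun i => u i ≠ 0), monomial (e i) (u i) := by
    unfold mk
    rw [sum_filter]
    apply sum_congr rfl
    intro i _
    by_cases h : u i = 0 <;> simp [h]
  rw [h]
  have h2 : ∀ S : Finset ℕ, (∑ i ∈ S, monomial (e i) (u i) : ℝ[X]).support.card ≤ S.card := by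
    intro S
    induction S using Finset.induction_on with
    | empty => simp
    | insert a S ha ih =>
      rw [sum_insert ha, card_insert_of_notMem ha]
      refine (card_support_add_le _ _).trans ?_
      have : (monomial (e a) (u a) : ℝ[X]).support.card ≤ 1 := by
        refine (card_le_card (support_monomial_subset _ _)).trans ?_
        simp
      omega
  exact h2 _

/-- The main bookkeeping lemma: a bilinear polynomial with a complex low-complexity coefficient matrix. -/
lemma Rep.of_matrix {Λ : Type*} (S : Finset Λ) (n : ℕ) (u v : Λ → ℕ → ℂ) (c : ℕ → ℕ → ℝ)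
    (e e' : ℕ → ℕ)
    (h : ∀ i < n, ∀ j < n, (c i j : ℂ) = ∑ l ∈ S, u l i * v l j) :
    Rep (∑ i ∈ range n, ∑ j ∈ range n, monomial (e i + e' j) (c i j))
      (∑ l ∈ S, 4 * (((range n).filter fun i => u l i ≠ 0).card + ((range n).filter fun j => v l j ≠ 0).card)) := by
  classical
  have key : (∑ i ∈ range n, ∑ j ∈ range n, monomial (e i + e' j) (c i j) : ℝ[X]) =
      ∑ l ∈ S, (mk n e (fun i => (u l i).re) * mk n e' (fun j => (v l j).re) +
        -(mk n e (fun i => (u l i).im) * mk n e' (fun j => (v l j).im))) := by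
    have h1 : ∀ l ∈ S, (mk n e (fun i => (u l i).re) * mk n e' (fun j => (v l j).re) +
        -(mk n e (fun i => (u l i).im) * mk n e' (fun j => (v l j).im))) =
        ∑ i ∈ range n, ∑ j ∈ range n, monomial (e i + e' j) ((u l i * v l j).re) := by
      intro l _
      unfold mk
      rw [sum_mul_sum, sum_mul_sum, ← sum_neg_distrib, ← sum_add_distrib]
      apply sum_congr rfl
      intro i _
      rw [← sum_neg_distrib, ← sum_add_distrib]
      apply sum_congr rfl
      intro j _
      rw [monomial_mul_monomial, monomial_mul_monomial, ← map_neg (monomial (e i + e' j)),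
        ← map_add (monomial (e i + e' j)), Complex.mul_re]
      congr 1
    rw [sum_congr rfl h1, sum_comm (s := S)]
    apply sum_congr rfl
    intro i hi
    rw [sum_comm (s := S)]
    apply sum_congr rfl
    intro j hj
    rw [← map_sum (monomial (e i + e' j))]
    congr 1
    have := h i (mem_range.mp hi) j (mem_range.mp hj)
    have h2 := congrArg Complex.re this
    rw [Complex.ofReal_re, Complex.re_sum] at h2
    exact h2
  rw [key]
  apply Rep.sum
  intro l _
  have hre : ∀ (w : ℕ → ℂ), ((range n).filter fun i => (w i).re ≠ 0).card ≤ ((range n).filter fun i => w i ≠ 0).card := by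
    intro w
    apply card_le_card
    intro i hi
    rw [mem_filter] at hi ⊢
    refine ⟨hi.1, fun h0 => hi.2 ?_⟩
    rw [h0]; simp
  have him : ∀ (w : ℕ → ℂ), ((range n).filter fun i => (w i).im ≠ 0).card ≤ ((range n).filter fun i => w i ≠ 0).card := by
    intro w
    apply card_le_card
    intro i hi
    rw [mem_filter] at hi ⊢
    refine ⟨hi.1, fun h0 => hi.2 ?_⟩
    rw [h0]; simp
  refine ((Rep.mul _ _).add (Rep.mul _ _).neg).mono ?_
  have a1 := (card_support_mk n e (fun i => (u l i).re)).trans (hre (u l))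
  have a2 := (card_support_mk n e' (fun i => (v l i).re)).trans (hre (v l))
  have a3 := (card_support_mk n e (fun i => (u l i).im)).trans (him (u l))
  have a4 := (card_support_mk n e' (fun i => (v l i).im)).trans (him (v l))
  omega

end Pool.Agent.H607R2
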