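import Mathlib

set_option autoImplicit false

namespace Pool.Agent.H607R2

open Polynomial Finset

/-- coefficients of the truncated partial theta polynomial -/
noncomputable def cf (m : ℕ) : ℝ := (-1) ^ m * (1 / 4) ^ (m ^ 2)

/-- the truncated partial theta polynomial -/
noncomputable def fN (N : ℕ) : ℝ[X] := ∑ m ∈ range N, monomial m (cf m)

lemma fN_eval (N : ℕ) (x : ℝ) : (fN N).eval x = ∑ m ∈ range N, cf m * x ^ m := by
  simp [fN, eval_finsetSum, eval_monomial]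

lemma term_eq_left (k m : ℕ) (h : m ≤ k) :
    (1 / 4 : ℝ) ^ (k ^ 2) * ((1 / 4) ^ (m ^ 2) * ((16 : ℝ) ^ k) ^ m) = (1 / 4) ^ ((k - m) ^ 2) := by
  obtain ⟨d, rfl⟩ := Nat.exists_eq_add_of_le h
  rw [Nat.add_sub_cancel_left]
  have h16 : (16 : ℝ) = ((1 / 4 : ℝ) ^ 2)⁻¹ := by norm_num
  rw [h16, ← mul_assoc, ← pow_add, ← pow_mul, inv_pow, ← pow_mul, ← div_eq_mul_inv,
    div_eq_iff (by positivity), ← pow_add]
  congr 1
  ring

lemma term_eq_right (k m : ℕ) (h : k ≤ m) :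
    (1 / 4 : ℝ) ^ (k ^ 2) * ((1 / 4) ^ (m ^ 2) * ((16 : ℝ) ^ k) ^ m) = (1 / 4) ^ ((m - k) ^ 2) := by
  obtain ⟨d, rfl⟩ := Nat.exists_eq_add_of_le h
  rw [Nat.add_sub_cancel_left]
  have h16 : (16 : ℝ) = ((1 / 4 : ℝ) ^ 2)⁻¹ := by norm_num
  rw [h16, ← mul_assoc, ← pow_add, ← pow_mul, inv_pow, ← pow_mul, ← div_eq_mul_inv,
    div_eq_iff (by positivity), ← pow_add]
  congr 1
  ring

lemma geom_bound (r : ℕ) : ∑ j ∈ range r, (1 / 4 : ℝ) ^ (j + 1) ≤ 1 / 3 := by
  have : ∀ r : ℕ, ∑ j ∈ range r, (1 / 4 : ℝ) ^ (j + 1) = 1 / 3 - 1 / 3 * (1 / 4) ^ r := by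
    intro r
    induction r with
    | zero => simp
    | succ n ih => rw [sum_range_succ, ih]; ring
  rw [this]
  have : (0 : ℝ) < (1 / 4) ^ r := by positivity
  linarith

lemma fN_sign (N k : ℕ) (hk : k < N) : 0 < (-1 : ℝ) ^ k * (fN N).eval ((16 : ℝ) ^ k) := by
  obtain ⟨r, rfl⟩ := Nat.exists_eq_add_of_lt hk
  have key : 0 < (1 / 4 : ℝ) ^ (k ^ 2) * ((-1 : ℝ) ^ k * (fN (k + r + 1)).eval ((16 : ℝ) ^ k)) := by
    rw [fN_eval, mul_sum, mul_sum]
    have e : k + r + 1 = (k + 1) + r := by ring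
    rw [e, sum_range_add, sum_range_succ]
    have hmid : (1 / 4 : ℝ) ^ (k ^ 2) * ((-1 : ℝ) ^ k * (cf k * ((16 : ℝ) ^ k) ^ k)) = 1 := by
      have h1 := term_eq_left k k le_rfl
      simp only [Nat.sub_self, ne_eq, OfNat.ofNat_ne_zero, not_false_eq_true, zero_pow, pow_zero] at h1
      have h2 : ((-1 : ℝ) ^ k) * (-1) ^ k = 1 := by
        rw [← mul_pow]; simp
      calc _ = ((-1 : ℝ) ^ k * (-1) ^ k) * ((1 / 4 : ℝ) ^ (k ^ 2) * ((1 / 4) ^ (k ^ 2) * ((16 : ℝ) ^ k) ^ k)) := by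
            unfold cf; ring
        _ = 1 := by rw [h1, h2]; norm_num
    have hleft : |∑ m ∈ range k, (1 / 4 : ℝ) ^ (k ^ 2) * ((-1 : ℝ) ^ k * (cf m * ((16 : ℝ) ^ k) ^ m))| ≤ 1 / 3 := by
      refine (abs_sum_le_sum_abs _ _).trans ?_
      calc ∑ m ∈ range k, |(1 / 4 : ℝ) ^ (k ^ 2) * ((-1 : ℝ) ^ k * (cf m * ((16 : ℝ) ^ k) ^ m))|
          ≤ ∑ m ∈ range k, (1 / 4 : ℝ) ^ (k - 1 - m + 1) := by
            apply sum_le_sum
            intro m hm
            rw [mem_range] at hm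
            have h1 := term_eq_left k m hm.le
            have : (1 / 4 : ℝ) ^ (k ^ 2) * ((-1 : ℝ) ^ k * (cf m * ((16 : ℝ) ^ k) ^ m))
                = ((-1 : ℝ) ^ k * (-1) ^ m) * (1 / 4) ^ ((k - m) ^ 2) := by
              rw [← h1]; unfold cf; ring
            rw [this, abs_mul, abs_mul, abs_pow, abs_pow, abs_neg, abs_one, one_pow, one_pow, one_mul, one_mul,
              abs_of_pos (by positivity)]
            apply pow_le_pow_of_le_one (by norm_num) (by norm_num)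
            have : k - 1 - m + 1 = k - m := by omega
            rw [this]
            nlinarith [Nat.sub_pos_of_lt hm]
        _ = ∑ j ∈ range k, (1 / 4 : ℝ) ^ (j + 1) := by
            rw [← sum_range_reflect (fun j => (1 / 4 : ℝ) ^ (j + 1)) k]
        _ ≤ 1 / 3 := geom_bound k
    have hright : |∑ j ∈ range r, (1 / 4 : ℝ) ^ (k ^ 2) * ((-1 : ℝ) ^ k * (cf (k + 1 + j) * ((16 : ℝ) ^ k) ^ (k + 1 + j)))| ≤ 1 / 3 := by
      refine (abs_sum_le_sum_abs _ _).trans ?_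
      calc ∑ j ∈ range r, |(1 / 4 : ℝ) ^ (k ^ 2) * ((-1 : ℝ) ^ k * (cf (k + 1 + j) * ((16 : ℝ) ^ k) ^ (k + 1 + j)))|
          ≤ ∑ j ∈ range r, (1 / 4 : ℝ) ^ (j + 1) := by
            apply sum_le_sum
            intro j _
            have h1 := term_eq_right k (k + 1 + j) (by omega)
            have : (1 / 4 : ℝ) ^ (k ^ 2) * ((-1 : ℝ) ^ k * (cf (k + 1 + j) * ((16 : ℝ) ^ k) ^ (k + 1 + j)))
                = ((-1 : ℝ) ^ k * (-1) ^ (k + 1 + j)) * (1 / 4) ^ ((k + 1 + j - k) ^ 2) := by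
              rw [← h1]; unfold cf; ring
            rw [this, abs_mul, abs_mul, abs_pow, abs_pow, abs_neg, abs_one, one_pow, one_pow, one_mul, one_mul,
              abs_of_pos (by positivity)]
            apply pow_le_pow_of_le_one (by norm_num) (by norm_num)
            have : k + 1 + j - k = j + 1 := by omega
            rw [this]
            nlinarith
        _ ≤ 1 / 3 := geom_bound r
    rw [hmid]
    have h1 := abs_le.mp hleft
    have h2 := abs_le.mp hright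
    linarith [h1.1, h2.1]
  have hp : (0 : ℝ) < (1 / 4) ^ (k ^ 2) := by positivity
  exact (mul_pos_iff_of_pos_left hp).mp key

lemma fN_ne_zero (N : ℕ) (hN : 0 < N) : fN N ≠ 0 := by
  intro h
  have := fN_sign N 0 hN
  rw [h] at this
  simp at this

lemma fN_root (N k : ℕ) (hk : k + 1 < N) :
    ∃ r : ℝ, (16 : ℝ) ^ k < r ∧ r < 16 ^ (k + 1) ∧ (fN N).eval r = 0 := by
  have h1 := fN_sign N k (by omega)
  have h2 := fN_sign N (k + 1) hk
  have hle : (16 : ℝ) ^ k ≤ 16 ^ (k + 1) := pow_le_pow_right₀ (by norm_num) (by omega)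
  have hc : ContinuousOn (fun x : ℝ => (-1 : ℝ) ^ k * (fN N).eval x) (Set.Icc ((16 : ℝ) ^ k) (16 ^ (k + 1))) :=
    (continuous_const.mul (fN N).continuous).continuousOn
  have h3 := intermediate_value_Ioo' hle hc
  have h4 : (0 : ℝ) ∈ Set.Ioo ((-1 : ℝ) ^ k * (fN N).eval ((16 : ℝ) ^ (k + 1))) ((-1 : ℝ) ^ k * (fN N).eval ((16 : ℝ) ^ k)) := by
    constructor
    · rw [pow_succ] at h2
      linarith
    · exact h1
  obtain ⟨r, hr, hr2⟩ := h3 h4
  refine ⟨r, hr.1, hr.2, ?_⟩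
  simp only at hr2
  rcases mul_eq_zero.mp hr2 with h | h
  · exfalso
    exact (pow_ne_zero k (by norm_num : (-1 : ℝ) ≠ 0)) h
  · exact h

theorem fN_roots_card (N : ℕ) (hN : 0 < N) : N - 1 ≤ (fN N).roots.toFinset.card := by
  classical
  have hex : ∀ k : ℕ, ∃ r : ℝ, k + 1 < N → (16 : ℝ) ^ k < r ∧ r < 16 ^ (k + 1) ∧ (fN N).eval r = 0 := by
    intro k
    by_cases hk : k + 1 < N
    · obtain ⟨r, hr⟩ := fN_root N k hk
      exact ⟨r, fun _ => hr⟩
    · exact ⟨0, fun h => absurd h hk⟩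
  choose r hr using hex
  have hcard : (range (N - 1)).card = N - 1 := card_range _
  rw [← hcard]
  apply card_le_card_of_injOn r
  · intro k hk
    have hk' : k + 1 < N := by
      have := mem_range.mp (mem_coe.mp hk)
      omega
    obtain ⟨_, _, h⟩ := hr k hk'
    rw [mem_coe, Multiset.mem_toFinset, mem_roots (fN_ne_zero N hN)]
    exact h
  · intro a ha b hb hab
    have ha' : a + 1 < N := by
      have := mem_range.mp (mem_coe.mp ha)
      omega
    have hb' : b + 1 < N := by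
      have := mem_range.mp (mem_coe.mp hb)
      omega
    obtain ⟨a1, a2, _⟩ := hr a ha'
    obtain ⟨b1, b2, _⟩ := hr b hb'
    by_contra hne
    rcases lt_or_gt_of_ne hne with h | h
    · have : (16 : ℝ) ^ (a + 1) ≤ 16 ^ b := pow_le_pow_right₀ (by norm_num) (by omega)
      rw [hab] at a2
      linarith
    · have : (16 : ℝ) ^ (b + 1) ≤ 16 ^ a := pow_le_pow_right₀ (by norm_num) (by omega)
      rw [hab] at a1
      linarith

end Pool.Agent.H607R2
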