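import Pool.Agent.H607R2.Params
import Pool.Agent.H607R2.Roots
import Pool.Agent.H607R2.Rep

set_option autoImplicit false
set_option linter.unusedSectionVars false

namespace Pool.Agent.H607R2

open Finset Polynomial

lemma sum_range_digits (g : ℕ → ℝ[X]) (n k : ℕ) :
    ∑ m ∈ range (n * k), g m = ∑ j ∈ range k, ∑ i ∈ range n, g (i + n * j) := by
  induction k with
  | zero => simp
  | succ k ih =>
    rw [Nat.mul_succ, sum_range_add, ih, sum_range_succ]
    congr 1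
    apply sum_congr rfl
    intro i _
    rw [add_comm]

lemma cf_factor (n i j : ℕ) :
    (cf (i + n * j) : ℂ) = (((-1) ^ i * (1 / 4) ^ (i ^ 2) * 4 ^ (n * i ^ 2) : ℝ) : ℂ) *
      (((-1) ^ (n * j) * (1 / 4) ^ ((n * j) ^ 2) * 4 ^ (n * j ^ 2) : ℝ) : ℂ) *
      (((1 / 4) ^ (n * (i + j) ^ 2) : ℝ) : ℂ) := by
  rw [← Complex.ofReal_mul, ← Complex.ofReal_mul]
  congr 1
  unfold cf
  have h4 : ∀ k : ℕ, (4 : ℝ) ^ k = ((1 / 4) ^ k)⁻¹ := by
    intro k
    rw [← inv_pow]; norm_num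
  rw [h4, h4]
  have e : (1 / 4 : ℝ) ^ ((i + n * j) ^ 2) * ((1 / 4) ^ (n * i ^ 2) * (1 / 4) ^ (n * j ^ 2)) =
      (1 / 4) ^ (i ^ 2) * (1 / 4) ^ ((n * j) ^ 2) * (1 / 4) ^ (n * (i + j) ^ 2) := by
    rw [← pow_add, ← pow_add, ← pow_add, ← pow_add]
    congr 1
    ring
  have h1 : ((1 / 4 : ℝ) ^ (n * i ^ 2)) ≠ 0 := by positivity
  have h2 : ((1 / 4 : ℝ) ^ (n * j ^ 2)) ≠ 0 := by positivity
  rw [pow_add]
  field_simp at e ⊢
  linear_combination e

/-- `fN (n * n)` has a representation of small support-sum. -/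
lemma rep_fN (P : Finset Nat.Primes) (h n : ℕ) (hn : n ≤ ∏ i, bb P i) (hn2 : 2 * n ≤ (∏ i, bb P i) + 1) :
    Rep (fN (n * n)) (16 * n * (ZZ (bb P) h).card + 8 * (NN (bb P) h).card) := by
  classical
  obtain ⟨V, V', c, hc⟩ := hankel (bb P) h (fun s => (((1 / 4) ^ (n * s ^ 2) : ℝ) : ℂ)) (red_inj P)
  set A : ℕ → ℂ := fun i => (((-1) ^ i * (1 / 4) ^ (i ^ 2) * 4 ^ (n * i ^ 2) : ℝ) : ℂ) with hA
  set A' : ℕ → ℂ := fun j => (((-1) ^ (n * j) * (1 / 4) ^ ((n * j) ^ 2) * 4 ^ (n * j ^ 2) : ℝ) : ℂ) with hA'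
  let u : (GG (bb P) ⊕ GG (bb P)) ⊕ GG (bb P) → ℕ → ℂ := fun l i =>
    Sum.elim (Sum.elim (fun z => A i * uu (bb P) z (red (bb P) i)) (fun z => A i * V' z i))
      (fun ξ => A i * (c ξ * Hi (bb P) h (red (bb P) i) ξ)) l
  let v : (GG (bb P) ⊕ GG (bb P)) ⊕ GG (bb P) → ℕ → ℂ := fun l j =>
    Sum.elim (Sum.elim (fun z => A' j * V z j) (fun z => A' j * uu (bb P) z (red (bb P) j)))
      (fun ξ => A' j * Hi (bb P) h (red (bb P) j) ξ) l
  let S : Finset ((GG (bb P) ⊕ GG (bb P)) ⊕ GG (bb P)) :=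
    ((ZZ (bb P) h).disjSum (ZZ (bb P) h)).disjSum univ
  have hmat : ∀ i < n, ∀ j < n, (cf (i + n * j) : ℂ) = ∑ l ∈ S, u l i * v l j := by
    intro i hi j hj
    have hij : i + j < ∏ i, bb P i := by omega
    rw [cf_factor]
    have h1 := hc i j hij
    rw [h1]
    simp only [S, sum_disjSum, u, v, Sum.elim_inl, Sum.elim_inr]
    rw [mul_add, mul_add, mul_sum, mul_sum, mul_sum]
    congr 1
    · congr 1
      · apply sum_congr rfl
        intro z _
        ring
      · apply sum_congr rfl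
        intro z _
        ring
    · apply sum_congr rfl
      intro z _
      ring
  have hrep := Rep.of_matrix S n u v (fun i j => cf (i + n * j)) (fun i => i) (fun j => n * j) hmat
  have hf : (∑ i ∈ range n, ∑ j ∈ range n, monomial (i + n * j) (cf (i + n * j)) : ℝ[X]) = fN (n * n) := by
    unfold fN
    rw [sum_range_digits, sum_comm]
  rw [hf] at hrep
  apply hrep.mono
  simp only [S, sum_disjSum]
  have hle : ∀ w : ℕ → ℂ, ((range n).filter fun i => w i ≠ 0).card ≤ n := fun w => by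
    simpa using card_filter_le (range n) (fun i => w i ≠ 0)
  have b1 : ∑ z ∈ ZZ (bb P) h, 4 * (((range n).filter fun i => u (Sum.inl (Sum.inl z)) i ≠ 0).card +
      ((range n).filter fun j => v (Sum.inl (Sum.inl z)) j ≠ 0).card) ≤ 8 * n * (ZZ (bb P) h).card := by
    calc _ ≤ ∑ _z ∈ ZZ (bb P) h, 8 * n := by
          apply sum_le_sum
          intro z _
          have h1 := hle (u (Sum.inl (Sum.inl z)))
          have h2 := hle (v (Sum.inl (Sum.inl z)))
          omega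
      _ = _ := by rw [sum_const, smul_eq_mul, mul_comm]
  have b2 : ∑ z ∈ ZZ (bb P) h, 4 * (((range n).filter fun i => u (Sum.inl (Sum.inr z)) i ≠ 0).card +
      ((range n).filter fun j => v (Sum.inl (Sum.inr z)) j ≠ 0).card) ≤ 8 * n * (ZZ (bb P) h).card := by
    calc _ ≤ ∑ _z ∈ ZZ (bb P) h, 8 * n := by
          apply sum_le_sum
          intro z _
          have h1 := hle (u (Sum.inl (Sum.inr z)))
          have h2 := hle (v (Sum.inl (Sum.inr z)))
          omega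
      _ = _ := by rw [sum_const, smul_eq_mul, mul_comm]
  have b3 : ∑ ξ : GG (bb P), 4 * (((range n).filter fun i => u (Sum.inr ξ) i ≠ 0).card +
      ((range n).filter fun j => v (Sum.inr ξ) j ≠ 0).card) ≤ 8 * (NN (bb P) h).card := by
    calc _ ≤ ∑ ξ : GG (bb P), 8 * ((range n).filter fun i => Hi (bb P) h (red (bb P) i) ξ ≠ 0).card := by
          apply sum_le_sum
          intro ξ _
          have h1 : ((range n).filter fun i => u (Sum.inr ξ) i ≠ 0).card ≤
              ((range n).filter fun i => Hi (bb P) h (red (bb P) i) ξ ≠ 0).card := by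
            apply card_le_card
            intro i hi
            rw [mem_filter] at hi ⊢
            refine ⟨hi.1, fun h0 => hi.2 ?_⟩
            simp only [u, Sum.elim_inr, h0, mul_zero]
          have h2 : ((range n).filter fun i => v (Sum.inr ξ) i ≠ 0).card ≤
              ((range n).filter fun i => Hi (bb P) h (red (bb P) i) ξ ≠ 0).card := by
            apply card_le_card
            intro i hi
            rw [mem_filter] at hi ⊢
            refine ⟨hi.1, fun h0 => hi.2 ?_⟩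
            simp only [v, Sum.elim_inr, h0, mul_zero]
          omega
      _ = 8 * ∑ ξ : GG (bb P), ((range n).filter fun i => Hi (bb P) h (red (bb P) i) ξ ≠ 0).card := by
          rw [mul_sum]
      _ ≤ _ := Nat.mul_le_mul_left 8 (sum_Hi_card (bb P) h n hn (red_inj P))
  calc _ ≤ (8 * n * (ZZ (bb P) h).card + 8 * n * (ZZ (bb P) h).card) + 8 * (NN (bb P) h).card :=
        add_le_add (add_le_add b1 b2) b3
    _ = _ := by ring

theorem disproof :
    ¬ (∃ κ : ℝ, 0 < κ ∧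
      ∀ f : Polynomial ℝ, f ≠ 0 →
        ∀ (s : ℕ) (c : Fin s → ℝ) (g : Fin s → Polynomial ℝ),
          f = ∑ i, Polynomial.C (c i) * g i ^ 2 →
            (f.roots.toFinset.card : ℝ) ≤ κ * ((∑ i, (g i).support.card : ℕ) : ℝ)) := by
  rintro ⟨κ, hκ, H⟩
  obtain ⟨P, h, hQ3, hR, hN⟩ := exists_params (1 / (128 * κ)) (by positivity)
  set Q := ∏ i, bb P i with hQ
  set n := (Q + 1) / 2 with hn
  have hn2 : 2 ≤ n := by omega
  have hnQ : n ≤ Q := by omega
  have h2n : 2 * n ≤ Q + 1 := by omega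
  have hQn : Q ≤ 2 * n := by omega
  obtain ⟨s, c, g, h1, h2⟩ := rep_fN P h n hnQ h2n
  have hpos : 0 < n * n := by positivity
  have h3 := H (fN (n * n)) (fN_ne_zero _ hpos) s c g h1
  have h4 := fN_roots_card (n * n) hpos
  have h5 : ((n * n : ℕ) : ℝ) - 1 ≤ ((fN (n * n)).roots.toFinset.card : ℝ) := by
    have : ((n * n - 1 : ℕ) : ℝ) ≤ ((fN (n * n)).roots.toFinset.card : ℝ) := by exact_mod_cast h4
    rwa [Nat.cast_sub (by omega), Nat.cast_one] at this
  have h6 : ((∑ i, (g i).support.card : ℕ) : ℝ) ≤ 16 * n * ((ZZ (bb P) h).card : ℝ) + 8 * ((NN (bb P) h).card : ℝ) := by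
    exact_mod_cast h2
  have hQn' : (Q : ℝ) ≤ 2 * n := by exact_mod_cast hQn
  have hn0 : (0 : ℝ) ≤ n := Nat.cast_nonneg _
  have hQ0 : (0 : ℝ) ≤ Q := Nat.cast_nonneg _
  have hε : (0 : ℝ) < 1 / (128 * κ) := by positivity
  have h7 : ((ZZ (bb P) h).card : ℝ) ≤ 1 / (128 * κ) * (2 * n) :=
    hR.trans (mul_le_mul_of_nonneg_left hQn' hε.le)
  have h8 : ((NN (bb P) h).card : ℝ) ≤ 1 / (128 * κ) * (2 * n) ^ 2 :=
    hN.trans (mul_le_mul_of_nonneg_left (pow_le_pow_left₀ hQ0 hQn' 2) hε.le)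
  have h9 : κ * (16 * n * ((ZZ (bb P) h).card : ℝ) + 8 * ((NN (bb P) h).card : ℝ)) ≤
      κ * (16 * n * (1 / (128 * κ) * (2 * n)) + 8 * (1 / (128 * κ) * (2 * n) ^ 2)) := by
    gcongr
  have h10 : κ * (16 * n * (1 / (128 * κ) * (2 * n)) + 8 * (1 / (128 * κ) * (2 * n) ^ 2)) = (n : ℝ) ^ 2 / 2 := by
    field_simp
    ring
  have h11 : ((n * n : ℕ) : ℝ) - 1 ≤ (n : ℝ) ^ 2 / 2 := by
    calc _ ≤ _ := h5
      _ ≤ _ := h3
      _ ≤ κ * (16 * n * ((ZZ (bb P) h).card : ℝ) + 8 * ((NN (bb P) h).card : ℝ)) :=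
          mul_le_mul_of_nonneg_left h6 hκ.le
      _ ≤ _ := h9
      _ = _ := h10
  have h12 : (2 : ℝ) ≤ n := by exact_mod_cast hn2
  push_cast at h11
  nlinarith

end Pool.Agent.H607R2
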