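import Pool.Agent.H607R2.Counting

set_option autoImplicit false
set_option linter.unusedSectionVars false

namespace Pool.Agent.H607R2

open Finset

/-- the moduli: a finite set of primes -/
def bb (P : Finset Nat.Primes) (i : P) : ℕ := ((i : Nat.Primes) : ℕ)

instance bbNeZero (P : Finset Nat.Primes) (i : P) : NeZero (bb P i) := ⟨(i : Nat.Primes).2.ne_zero⟩

lemma bb_prime (P : Finset Nat.Primes) (i : P) : (bb P i).Prime := (i : Nat.Primes).2

lemma bb_inj (P : Finset Nat.Primes) {i j : P} (h : bb P i = bb P j) : i = j := by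
  apply Subtype.ext
  apply Subtype.ext
  exact h

lemma red_inj (P : Finset Nat.Primes) :
    ∀ s < ∏ i, bb P i, ∀ s' < ∏ i, bb P i, red (bb P) s = red (bb P) s' → s = s' := by
  have key : ∀ s s' : ℕ, s ≤ s' → s' < ∏ i, bb P i → red (bb P) s = red (bb P) s' → s = s' := by
    intro s s' hle hs' hred
    have h1 : ∀ i, bb P i ∣ s' - s := by
      intro i
      have := congrFun hred i
      unfold red at this
      rw [ZMod.natCast_eq_natCast_iff] at this
      exact (Nat.modEq_iff_dvd' hle).mp this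
    have h2 : ∏ i, bb P i ∣ s' - s := by
      apply Finset.prod_dvd_of_isRelPrime
      · intro i _ j _ hij
        rw [Function.onFun, ← Nat.coprime_iff_isRelPrime]
        rw [Nat.coprime_primes (bb_prime P i) (bb_prime P j)]
        exact fun h => hij (bb_inj P h)
      · intro i _
        exact h1 i
    have h3 := Nat.eq_zero_of_dvd_of_lt h2 (by omega)
    omega
  intro s hs s' hs' hred
  rcases le_total s s' with h | h
  · exact key s s' h hs' hred
  · exact (key s' s h hs hred.symm).symm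

lemma exists_large_sum (C : ℝ) : ∃ P : Finset Nat.Primes, C < ∑ p ∈ P, 1 / ((p : ℕ) : ℝ) := by
  by_contra hcon
  push Not at hcon
  exact Nat.Primes.not_summable_one_div (summable_of_sum_le (fun p => by positivity) hcon)

lemma params_aux (P : Finset Nat.Primes) :
    ∃ h : ℕ, ((ZZ (bb P) h).card : ℝ) ≤ (5 / 4 * Real.exp (-(∑ p ∈ P, 1 / ((p : ℕ) : ℝ)) / 40)) * ((∏ i, bb P i : ℕ) : ℝ) ∧
      ((NN (bb P) h).card : ℝ) ≤ (5 / 4 * Real.exp (-(∑ p ∈ P, 1 / ((p : ℕ) : ℝ)) / 40)) * ((∏ i, bb P i : ℕ) : ℝ) ^ 2 := by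
  set μ := ∑ p ∈ P, 1 / ((p : ℕ) : ℝ) with hμ
  have hμ' : μ = ∑ i : P, 1 / (bb P i : ℝ) := by
    rw [hμ, ← Finset.sum_coe_sort]
    rfl
  set X : ℝ := ∏ i : P, (1 + 1 / (4 * (bb P i : ℝ))) with hX
  set Y : ℝ := ∏ i : P, (1 - 3 / (10 * (bb P i : ℝ))) with hY
  have hb2 : ∀ i : P, (2 : ℝ) ≤ (bb P i : ℝ) := fun i => by exact_mod_cast (bb_prime P i).two_le
  have hb0 : ∀ i : P, (0 : ℝ) < (bb P i : ℝ) := fun i => by linarith [hb2 i]
  have hX1 : 1 ≤ X := by
    rw [hX]
    have : ∀ i : P, (1 : ℝ) ≤ 1 + 1 / (4 * (bb P i : ℝ)) := fun i => by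
      have := hb0 i
      have : 0 < 1 / (4 * (bb P i : ℝ)) := by positivity
      linarith
    calc (1 : ℝ) = ∏ _i : P, (1 : ℝ) := by simp
      _ ≤ _ := prod_le_prod (fun _ _ => by norm_num) fun i _ => this i
  have hY0 : 0 ≤ Y := by
    rw [hY]
    apply prod_nonneg
    intro i _
    have h1 := hb2 i
    have h2 := hb0 i
    rw [sub_nonneg, div_le_one (by positivity)]
    linarith
  have hXY : X * Y ≤ Real.exp (-μ / 20) := by
    rw [hX, hY, ← prod_mul_distrib, hμ', neg_div, sum_div, ← sum_neg_distrib, Real.exp_sum]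
    apply prod_le_prod
    · intro i _
      have h1 := hb2 i
      have h2 := hb0 i
      have h3 : 0 ≤ 1 - 3 / (10 * (bb P i : ℝ)) := by
        rw [sub_nonneg, div_le_one (by positivity)]
        linarith
      positivity
    · intro i _
      have h2 := hb0 i
      have h3 := Real.add_one_le_exp (-(1 / (bb P i : ℝ) / 20))
      refine le_trans ?_ h3
      have e : (1 + 1 / (4 * (bb P i : ℝ))) * (1 - 3 / (10 * (bb P i : ℝ)))
          = (-(1 / (bb P i : ℝ) / 20) + 1) - 3 / 40 * (1 / (bb P i : ℝ)) ^ 2 := by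
        field_simp
        ring
      rw [e]
      have : 0 ≤ 3 / 40 * (1 / (bb P i : ℝ)) ^ 2 := by positivity
      linarith
  set τ := X * Real.exp (μ / 40) with hτ
  have hμ0 : 0 ≤ μ := by rw [hμ]; positivity
  have hτ1 : 1 ≤ τ := by
    have : 1 ≤ Real.exp (μ / 40) := Real.one_le_exp (by positivity)
    rw [hτ]
    nlinarith
  obtain ⟨n, hn1, hn2⟩ := exists_nat_pow_near hτ1 (by norm_num : (1 : ℝ) < 5 / 4)
  have hQ : ((∏ i, bb P i : ℕ) : ℝ) = ∏ i : P, (bb P i : ℝ) := by push_cast; rfl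
  have hQ0 : 0 < ∏ i : P, (bb P i : ℝ) := prod_pos fun i _ => hb0 i
  have he : Real.exp (μ / 40) * Real.exp (-μ / 40) = 1 := by
    rw [← Real.exp_add]; simp [neg_div]
  have he2 : Real.exp (-μ / 20) * Real.exp (μ / 40) = Real.exp (-μ / 40) := by
    rw [← Real.exp_add]; congr 1; ring
  have hpos := Real.exp_pos (-μ / 40)
  have hpos' := Real.exp_pos (μ / 40)
  refine ⟨n + 1, ?_, ?_⟩
  · have h1 := card_ZZ (bb P) (n + 1) (5 / 4) (by norm_num)
    have h2 : ∏ i : P, ((bb P i : ℝ) - 1 + 5 / 4) = (∏ i : P, (bb P i : ℝ)) * X := by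
      rw [hX, ← prod_mul_distrib]
      apply prod_congr rfl
      intro i _
      have := hb0 i
      field_simp
      ring
    rw [h2] at h1
    rw [hQ]
    set R := ((ZZ (bb P) (n + 1)).card : ℝ)
    have hR : 0 ≤ R := Nat.cast_nonneg _
    have h3 : R * τ ≤ (∏ i : P, (bb P i : ℝ)) * X :=
      (mul_le_mul_of_nonneg_left hn2.le hR).trans h1
    have h4 : R * Real.exp (μ / 40) ≤ ∏ i : P, (bb P i : ℝ) := by
      have hX0 : 0 < X := by linarith
      have : (R * Real.exp (μ / 40)) * X ≤ (∏ i : P, (bb P i : ℝ)) * X := by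
        rw [hτ] at h3; linarith
      exact le_of_mul_le_mul_right this hX0
    have h5 : R ≤ Real.exp (-μ / 40) * ∏ i : P, (bb P i : ℝ) := by
      calc R = (R * Real.exp (μ / 40)) * Real.exp (-μ / 40) := by rw [mul_assoc, he, mul_one]
        _ ≤ (∏ i : P, (bb P i : ℝ)) * Real.exp (-μ / 40) := mul_le_mul_of_nonneg_right h4 hpos.le
        _ = _ := mul_comm _ _
    have h6 : 0 ≤ Real.exp (-μ / 40) * ∏ i : P, (bb P i : ℝ) := by positivity
    linarith
  · have h1 := card_NN (bb P) (n + 1) (4 / 5) (by norm_num) (by norm_num)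
    have h2 : ∏ i : P, (((bb P i : ℝ) - 1) ^ 2 + 4 / 5 * (2 * (bb P i : ℝ) - 1)) ≤ (∏ i : P, (bb P i : ℝ)) ^ 2 * Y := by
      rw [hY, ← prod_pow, ← prod_mul_distrib]
      apply prod_le_prod
      · intro i _
        have := hb2 i
        have : 0 ≤ 2 * (bb P i : ℝ) - 1 := by linarith
        positivity
      · intro i _
        have h1 := hb2 i
        have h2 := hb0 i
        have e : (bb P i : ℝ) ^ 2 * (1 - 3 / (10 * (bb P i : ℝ))) = (bb P i : ℝ) ^ 2 - 3 / 10 * (bb P i : ℝ) := by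
          field_simp
        rw [e]
        nlinarith
    rw [hQ]
    set R := ((NN (bb P) (n + 1)).card : ℝ)
    have hR : 0 ≤ R := Nat.cast_nonneg _
    have h3 : R ≤ ((∏ i : P, (bb P i : ℝ)) ^ 2 * Y) * (5 / 4) ^ (n + 1) := by
      have e1 : ((4 / 5 : ℝ)) ^ (n + 1) * (5 / 4) ^ (n + 1) = 1 := by
        rw [← mul_pow]; norm_num
      calc R = (R * (4 / 5) ^ (n + 1)) * (5 / 4) ^ (n + 1) := by rw [mul_assoc, e1, mul_one]
        _ ≤ _ := mul_le_mul_of_nonneg_right (h1.trans h2) (by positivity)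
    have h4 : ((5 / 4 : ℝ)) ^ (n + 1) ≤ 5 / 4 * τ := by
      rw [pow_succ]; linarith
    calc R ≤ ((∏ i : P, (bb P i : ℝ)) ^ 2 * Y) * (5 / 4) ^ (n + 1) := h3
      _ ≤ ((∏ i : P, (bb P i : ℝ)) ^ 2 * Y) * (5 / 4 * τ) :=
          mul_le_mul_of_nonneg_left h4 (by positivity)
      _ = 5 / 4 * (X * Y) * Real.exp (μ / 40) * (∏ i : P, (bb P i : ℝ)) ^ 2 := by rw [hτ]; ring
      _ ≤ 5 / 4 * Real.exp (-μ / 20) * Real.exp (μ / 40) * (∏ i : P, (bb P i : ℝ)) ^ 2 := by
          gcongr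
      _ = (5 / 4 * Real.exp (-μ / 40)) * (∏ i : P, (bb P i : ℝ)) ^ 2 := by
          rw [← he2]; ring

lemma exists_params (ε : ℝ) (hε : 0 < ε) :
    ∃ (P : Finset Nat.Primes) (h : ℕ), 3 ≤ ∏ i, bb P i ∧
      ((ZZ (bb P) h).card : ℝ) ≤ ε * ((∏ i, bb P i : ℕ) : ℝ) ∧
      ((NN (bb P) h).card : ℝ) ≤ ε * ((∏ i, bb P i : ℕ) : ℝ) ^ 2 := by
  obtain ⟨P, hP⟩ := exists_large_sum (max 1 (-40 * Real.log (ε * (4 / 5))))
  obtain ⟨h, h1, h2⟩ := params_aux P
  have hP1 := (le_max_left _ _).trans_lt hP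
  have hP2 := (le_max_right _ _).trans_lt hP
  set μ := ∑ p ∈ P, 1 / ((p : ℕ) : ℝ) with hμ
  have hε' : 5 / 4 * Real.exp (-μ / 40) ≤ ε := by
    have h3 : -μ / 40 ≤ Real.log (ε * (4 / 5)) := by linarith
    have h4 := Real.exp_le_exp.mpr h3
    rw [Real.exp_log (by positivity)] at h4
    linarith
  refine ⟨P, h, ?_, h1.trans ?_, h2.trans ?_⟩
  · have hcard : 2 < P.card := by
      have : μ ≤ ∑ _p ∈ P, (1 / 2 : ℝ) := by
        rw [hμ]
        apply sum_le_sum
        intro p _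
        have : (2 : ℝ) ≤ ((p : ℕ) : ℝ) := by exact_mod_cast p.2.two_le
        apply one_div_le_one_div_of_le (by norm_num) this
      rw [sum_const, nsmul_eq_mul] at this
      have h5 : (2 : ℝ) < P.card := by linarith
      exact_mod_cast h5
    have h6 : 2 ^ P.card ≤ ∏ i, bb P i := by
      have : ∏ _i : P, 2 ≤ ∏ i, bb P i := prod_le_prod' fun i _ => (bb_prime P i).two_le
      rwa [prod_const, card_univ, Fintype.card_coe] at this
    have h7 : 2 ^ 2 ≤ 2 ^ P.card := Nat.pow_le_pow_right (by norm_num) hcard.le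
    omega
  · exact mul_le_mul_of_nonneg_right hε' (Nat.cast_nonneg _)
  · exact mul_le_mul_of_nonneg_right hε' (by positivity)

end Pool.Agent.H607R2
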